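import Pool.Agent.Work.MP_fb0e57_co.Proof

set_option autoImplicit false

/-!
# The reconfiguration graph of minimal dominating sets has girth at most five

`reconfigurationGraph G` (file `Pool/Agent/Work/MP_fb0e57_co/Defs.lean`) is the graph `R(G)` of the
problem: its vertices are the minimal dominating sets of `G`, and two of them are adjacent when one
arises from the other by replacing a single vertex by some of its neighbours.
-/

namespace Pool.Agent.Results.MP_fb0e57_co.GirthAtMostFive

open Pool.Agent.Work.MP_fb0e57_co

/-- For every finite simple graph `G`: if `R(G)` contains a cycle, then `R(G)` contains a cycle of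
length 3, 4 or 5. -/
theorem result {V : Type*} [Fintype V] [DecidableEq V] (G : SimpleGraph V)
    (h : ∃ (M : {S : Finset V // IsMinimalDominating G S})
      (w : (reconfigurationGraph G).Walk M M), w.IsCycle) :
    ∃ (M : {S : Finset V // IsMinimalDominating G S})
      (w : (reconfigurationGraph G).Walk M M), w.IsCycle ∧
        (w.length = 3 ∨ w.length = 4 ∨ w.length = 5) :=
  main G h

end Pool.Agent.Results.MP_fb0e57_co.GirthAtMostFive
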